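import Pool.Agent.H791_Star.Touch

/-!
# A compact connected set in `ℝ^d` any `d + 1` of whose LNC points are clearly visible from a
common point is starshaped

This answers Q1 of MP_ad2f8c_co in the affirmative for every `d`, with `n(d) = d + 1`.
-/

namespace Pool.Agent.Results.MP_ad2f8c_co.ClearVisibility

open H791.Star

/-- Let `E` be a compact connected set in `ℝ^d`. If any `d + 1` locally nonconvex points of `E`
(not necessarily distinct) are clearly visible from a common point of `E`, then `E` is
starshaped. -/
theorem result : ∀ (d : ℕ) (E : Set (EuclideanSpace ℝ (Fin d))),
    IsCompact E → IsConnected E → PropC (d + 1) E → Starshaped E :=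
  fun _ _ hE hconn hC => main hE hconn hC

end Pool.Agent.Results.MP_ad2f8c_co.ClearVisibility
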